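import Pool.Agent.V11329.LG.Main

/-! MP_383407_pr: for the symmetric line growth with threshold `r ≥ 3` the origin is occupied by
time `t` with probability tending to one as soon as `t ≫ p^{-(r-1)}`; in particular the lower bound
with the logarithmic factor is false. -/

set_option autoImplicit false

namespace Pool.Agent.Results.MP_383407_pr.NoLogFactor

open Pool.Agent.V11329.LG MeasureTheory Filter Topology

lemma log_tendsto : Tendsto (fun p : ℝ => Real.log (1 / p)) (𝓝[>] 0) atTop := by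
  have h1 : Tendsto (fun p : ℝ => 1 / p) (𝓝[>] 0) atTop := by
    simp only [one_div]
    exact tendsto_inv_nhdsGT_zero
  exact Real.tendsto_log_atTop.comp h1

theorem result (r : ℕ) (hr : 3 ≤ r) (ρ : ℕ) (hρ : r ≤ ρ) :
    (∀ t : ℝ → ℝ, Tendsto (fun p => t p * p ^ (r - 1)) (𝓝[>] 0) atTop →
      Tendsto (fun p => (siteLaw (ℤ × ℤ) p).real {ω | occBy r ρ ω (t p)}) (𝓝[>] 0) (𝓝 1)) ∧
    (∃ t : ℝ → ℝ,
      Tendsto (fun p => t p / ((p ^ (r - 1))⁻¹ * Real.log (1 / p))) (𝓝[>] 0) (𝓝 0) ∧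
      Tendsto (fun p => (siteLaw (ℤ × ℤ) p).real {ω | occBy r ρ ω (t p)}) (𝓝[>] 0) (𝓝 1)) := by
  refine ⟨fun t ht => tendsto_one r ρ hr hρ t ht,
    fun p => (p ^ (r - 1))⁻¹ * Real.sqrt (Real.log (1 / p)), ?_, ?_⟩
  · have h1 : Tendsto (fun p : ℝ => (Real.sqrt (Real.log (1 / p)))⁻¹) (𝓝[>] 0) (𝓝 0) :=
      tendsto_inv_atTop_zero.comp (Real.tendsto_sqrt_atTop.comp log_tendsto)
    refine h1.congr' ?_
    have e1 : ∀ᶠ p : ℝ in 𝓝[>] 0, 0 < p := self_mem_nhdsWithin
    filter_upwards [e1, log_tendsto.eventually_gt_atTop 0] with p hp hl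
    have h2 : Real.sqrt (Real.log (1 / p)) ≠ 0 := (Real.sqrt_pos.2 hl).ne'
    have h3 : Real.log (1 / p) =
        Real.sqrt (Real.log (1 / p)) * Real.sqrt (Real.log (1 / p)) :=
      (Real.mul_self_sqrt hl.le).symm
    have h4 : (p ^ (r - 1))⁻¹ ≠ 0 := by positivity
    generalize (p ^ (r - 1))⁻¹ = Q at *
    generalize Real.sqrt (Real.log (1 / p)) = s at *
    rw [h3]
    field_simp
  · refine tendsto_one r ρ hr hρ _ ?_
    have h1 : Tendsto (fun p : ℝ => Real.sqrt (Real.log (1 / p))) (𝓝[>] 0) atTop :=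
      Real.tendsto_sqrt_atTop.comp log_tendsto
    refine h1.congr' ?_
    have e1 : ∀ᶠ p : ℝ in 𝓝[>] 0, 0 < p := self_mem_nhdsWithin
    filter_upwards [e1] with p hp
    have h4 : p ^ (r - 1) ≠ 0 := by positivity
    field_simp

end Pool.Agent.Results.MP_383407_pr.NoLogFactor
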